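import Pool.Agent.H23.ARZ.Stmts

/-!
# Module INT: the majorant is integrable
-/

set_option autoImplicit false

open MeasureTheory Set Filter Topology Complex

namespace Pool.ARZ

theorem INT_aa_nonneg (q R : ℝ) (u : ℂ) : 0 ≤ aa q R u := by
  unfold aa
  split_ifs
  · positivity
  · exact le_refl _

theorem INT_aa_meas (q R : ℝ) : Measurable (aa q R) := by
  unfold aa
  refine Measurable.ite ?_ ?_ measurable_const
  · exact measurableSet_le measurable_norm measurable_const
  · exact measurable_norm.pow_const _

theorem INT_aa_int (q R : ℝ) (hq : q < 2) (hR : 0 < R) : Integrable (aa q R) volume := by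
  have h := (integrable_fun_norm_addHaar (μ := (volume : Measure ℂ)) (E := ℂ)
    (f := fun y : ℝ => if y ≤ R then y ^ (-q) else 0))
  have h2 : (fun x : ℂ => (fun y : ℝ => if y ≤ R then y ^ (-q) else 0) ‖x‖) = aa q R := rfl
  rw [h2] at h
  rw [h]
  have h3 : IntegrableOn (fun y : ℝ => y ^ (1 - q)) (Ioc 0 R) volume := by
    have := intervalIntegral.intervalIntegrable_rpow' (a := 0) (b := R) (r := 1 - q) (by linarith)
    rwa [intervalIntegrable_iff_integrableOn_Ioc_of_le hR.le] at this
  have h4 : Ioi (0 : ℝ) = Ioc 0 R ∪ Ioi R := (Ioc_union_Ioi_eq_Ioi hR.le).symm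
  rw [h4, integrableOn_union]
  constructor
  · refine h3.congr_fun ?_ measurableSet_Ioc
    intro y hy
    have hy0 : 0 < y := hy.1
    simp only [Complex.finrank_real_complex, hy.2, if_true, smul_eq_mul]
    rw [sub_eq_add_neg, Real.rpow_add hy0, Real.rpow_one]
    norm_num
  · refine (integrableOn_zero (μ := volume) (s := Ioi R)).congr_fun ?_ measurableSet_Ioi
    intro y hy
    have : ¬ y ≤ R := not_le.mpr hy
    simp [this]

theorem INT_shear {β : Type*} [MeasurableSpace β] {ν : Measure β} [SFinite ν] (a : ℂ → ℝ)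
    (ham : Measurable a) (ha0 : ∀ u, 0 ≤ a u) (hai : Integrable a volume) (B : β → ℝ)
    (hB : Integrable B ν) (ζ : β → ℂ) (hζ : Measurable ζ) :
    Integrable (fun p : ℂ × β => (a p.1 + a (p.1 - ζ p.2)) * B p.2) (volume.prod ν) := by
  have hm : AEStronglyMeasurable (fun p : ℂ × β => (a p.1 + a (p.1 - ζ p.2)) * B p.2)
      (volume.prod ν) := by
    refine AEStronglyMeasurable.mul ?_ ?_
    · refine Measurable.aestronglyMeasurable ?_
      exact (ham.comp measurable_fst).add
        (ham.comp (measurable_fst.sub (hζ.comp measurable_snd)))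
    · exact hB.aestronglyMeasurable.comp_snd
  have hint : ∀ z : ℂ, Integrable (fun x : ℂ => a (x - z)) volume := fun z =>
    hai.comp_sub_right z
  rw [integrable_prod_iff' hm]
  constructor
  · refine Eventually.of_forall fun y => ?_
    have h0 : Integrable (fun x : ℂ => (a x + a (x - ζ y)) * B y) volume :=
      (hai.add (hint (ζ y))).mul_const (B y)
    exact h0
  · have h1 : (fun y : β => ∫ x : ℂ, ‖(a x + a (x - ζ y)) * B y‖)
        = fun y => (2 * ∫ x, a x) * ‖B y‖ := by
      funext y
      have h2 : (fun x : ℂ => ‖(a x + a (x - ζ y)) * B y‖)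
          = fun x => (a x + a (x - ζ y)) * ‖B y‖ := by
        funext x
        rw [norm_mul, Real.norm_of_nonneg (add_nonneg (ha0 _) (ha0 _))]
      rw [h2, integral_mul_const, integral_add hai (hint _), integral_sub_right_eq_self a (ζ y)]
      ring
    rw [h1]
    exact hB.norm.const_mul _

theorem sInt : SInt := by
  intro q R hq hR
  have hai := INT_aa_int q R hq hR
  have ham := INT_aa_meas q R
  have ha0 := INT_aa_nonneg q R
  have h1 : Integrable (fun p : ℂ × ℂ => (aa q R p.1 + aa q R (p.1 - p.2)) * aa q R p.2)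
      (volume.prod volume) := INT_shear (aa q R) ham ha0 hai (aa q R) hai (fun z => z)
        measurable_id
  have h2 := INT_shear (aa q R) ham ha0 hai _ h1 (fun p : ℂ × ℂ => p.2) measurable_snd
  have h3 : BB q R = fun p : ℂ × ℂ × ℂ => (aa q R p.1 + aa q R (p.1 - p.2.2))
      * ((aa q R p.2.1 + aa q R (p.2.1 - p.2.2)) * aa q R p.2.2) := by
    funext w
    unfold BB
    ring
  rw [h3]
  exact h2

end Pool.ARZ
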